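import Pool.Agent.MWF.Stmts

/-!
# Squad MWF, row ABF: products of idempotents
-/

set_option autoImplicit false

namespace Pool.Agent.MWF.H30

open Pool.Agent.Helper14_MV Pool.Agent.Helper2_MV

theorem abf (hb : BndStmt) : AbfStmt := by
  intro β hm ha e f t t' w he hf hw hw' hw3
  have h := hb β hm ha
  have ew : e * w = w := by rw [hw, ← mul_assoc, he]
  have wf : w * f = w := by rw [hw', mul_assoc, hf]
  generalize hg : w * w = g at hw3 ⊢
  have hgw : g * w = g := hw3.symm
  have hgg : g * g = g := by
    conv_lhs => rhs; rw [← hg]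
    rw [← mul_assoc, hgw, hgw]
  have heg : e * g = g := by rw [← hg, ← mul_assoc, ew]
  have hgf : g * f = g := by rw [← hg, mul_assoc, wf]
  have hkk : g * e * (g * e) = g * e := by
    rw [mul_assoc, ← mul_assoc e g e, heg, ← mul_assoc, hgg]
  have hgk : g * (g * e) = g * e := by rw [← mul_assoc, hgg]
  have hkg : g * e * g = g := by rw [mul_assoc, heg, hgg]
  have hmm : f * g * (f * g) = f * g := by
    rw [mul_assoc, ← mul_assoc g f g, hgf, hgg]
  have hmg : f * g * g = f * g := by rw [mul_assoc, hgg]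
  have hgm : g * (f * g) = g := by rw [← mul_assoc, hgf, hgg]
  exact ⟨(h g (g * e) hgg hkk).1 hgk hkg, (h g (f * g) hgg hmm).2 hmg hgm⟩

end Pool.Agent.MWF.H30

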